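import Pool.Agent.Y16.AF.StmB
import Pool.Agent.Y901.AF.En

/-!
# The second part of the coefficient converges

The contribution of the spin, `FY`, summed over the nonzero momenta.
-/

open Filter Topology
open Pool.Agent.Y16.AF Pool.Agent.Y901.AF

namespace Pool.Agent.Y983.AF

noncomputable section

/-- The symbol of the lattice Laplacian. -/
def WW (x : Fin 3 → ℝ) : ℝ := ∑ j, (2 - 2 * Real.cos (x j))

/-- The square of the Euclidean norm. -/
def QQ (x : Fin 3 → ℝ) : ℝ := ∑ j, x j ^ 2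

/-- The momentum with integer representative `n`. -/
def ag (M : ℕ) (n : Fin 3 → ℤ) : Fin 3 → ℝ := fun j => 2 * Real.pi / (M : ℝ) * (n j : ℝ)

/-- The energy of the momentum with integer representative `n`. -/
def wn (M : ℕ) (n : Fin 3 → ℤ) : ℝ := 2 * Real.arsinh (Real.sqrt (WW (ag M n)) / 2)

/-- The leading coefficient of the double sum. -/
def yy (ω : ℝ) : ℝ := (Real.cosh ω + 1) / (2 * Real.sinh ω ^ 3)

/-- The remainder of the double sum. -/
def FA (M : ℕ) (n : Fin 3 → ℤ) : ℝ :=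
  (1 + Real.cos (ag M n 0)) * (YY M (wn M n) - M * yy (wn M n)) / (M : ℝ) ^ 4

/-- The leading term minus its value in the continuum. -/
def hh (x : Fin 3 → ℝ) : ℝ :=
  (1 + Real.cos (x 0)) / (Real.sqrt (WW x) ^ 3 * Real.sqrt (1 + WW x / 4)) -
    2 / Real.sqrt (QQ x) ^ 3

lemma WW_le (x : Fin 3 → ℝ) : WW x ≤ QQ x :=
  Finset.sum_le_sum fun _ _ => two_sub_le _

lemma WW_ge {x : Fin 3 → ℝ} (hx : ∀ j, |x j| ≤ Real.pi) : 4 / Real.pi ^ 2 * QQ x ≤ WW x := by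
  unfold WW QQ
  rw [Finset.mul_sum]
  exact Finset.sum_le_sum fun j _ => le_two_sub _ (hx j)

lemma QQ_sub_WW (x : Fin 3 → ℝ) : QQ x - WW x ≤ QQ x ^ 2 := by
  unfold WW QQ
  rw [← Finset.sum_sub_distrib]
  calc ∑ j, (x j ^ 2 - (2 - 2 * Real.cos (x j))) ≤ ∑ j, x j ^ 4 :=
        Finset.sum_le_sum fun j _ => cos_quartic _
    _ = ∑ j, (x j ^ 2) ^ 2 := Finset.sum_congr rfl fun j _ => by ring
    _ ≤ (∑ j, x j ^ 2) ^ 2 := Finset.sum_sq_le_sq_sum_of_nonneg fun j _ => sq_nonneg _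

lemma QQ_pos {x : Fin 3 → ℝ} (hx : x ≠ 0) : 0 < QQ x := by
  obtain ⟨j, hj⟩ : ∃ j, x j ≠ 0 := by
    by_contra hcon
    push Not at hcon
    exact hx (funext hcon)
  refine Finset.sum_pos' (fun i _ => sq_nonneg _) ⟨j, Finset.mem_univ j, by positivity⟩

lemma QQ_le_WW {x : Fin 3 → ℝ} (hx : ∀ j, |x j| ≤ Real.pi) : QQ x / 4 ≤ WW x := by
  refine le_trans ?_ (WW_ge hx)
  have h1 : 0 ≤ QQ x := Finset.sum_nonneg fun i _ => sq_nonneg _
  have h2 : Real.pi ^ 2 ≤ 16 := by nlinarith [Real.pi_lt_four, Real.pi_pos]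
  have h3 : 1 / 4 ≤ 4 / Real.pi ^ 2 := by
    rw [div_le_div_iff₀ (by norm_num) (by positivity)]
    linarith
  nlinarith

lemma WW_pos {x : Fin 3 → ℝ} (hx : ∀ j, |x j| ≤ Real.pi) (hx0 : x ≠ 0) : 0 < WW x := by
  have h1 := QQ_pos hx0
  have h2 := QQ_le_WW hx
  linarith

lemma QQ_le {x : Fin 3 → ℝ} (hx : ∀ j, |x j| ≤ Real.pi) : QQ x ≤ 36 := by
  have h : ∀ j, x j ^ 2 ≤ 12 := fun j => by
    have h1 := hx j
    have h2 : Real.pi < 3.15 := Real.pi_lt_d2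
    have h3 := Real.pi_pos
    rw [← sq_abs]
    nlinarith [abs_nonneg (x j)]
  calc QQ x ≤ ∑ _j : Fin 3, (12 : ℝ) := Finset.sum_le_sum fun j _ => h j
    _ = 36 := by simp; norm_num

/-- The bound for the difference of the leading terms. -/
lemma hh_bound {x : Fin 3 → ℝ} (hx : ∀ j, |x j| ≤ Real.pi) (hx0 : x ≠ 0) :
    |hh x| ≤ 288 / QQ x := by
  have hQ := QQ_pos hx0
  have hW := WW_pos hx hx0
  have h1 := WW_le x
  have h2 := QQ_sub_WW x
  have h3 := QQ_le_WW hx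
  have h4 := QQ_le hx
  obtain ⟨Q, hQe⟩ : ∃ Q, Q = QQ x := ⟨_, rfl⟩
  obtain ⟨W, hWe⟩ : ∃ W, W = WW x := ⟨_, rfl⟩
  obtain ⟨c, hce⟩ : ∃ c, c = Real.cos (x 0) := ⟨_, rfl⟩
  have hc1 : c ≤ 1 := hce ▸ Real.cos_le_one _
  have hc0 : -1 ≤ c := hce ▸ Real.neg_one_le_cos _
  have hc2 : 1 - c ≤ Q / 2 := by
    have h5 := two_sub_le (x 0)
    have h6 : x 0 ^ 2 ≤ QQ x := Finset.single_le_sum
      (f := fun j => x j ^ 2) (fun i _ => sq_nonneg _) (Finset.mem_univ 0)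
    rw [hce, hQe]
    linarith
  unfold hh
  rw [← hQe, ← hWe, ← hce]
  rw [← hQe] at hQ h1 h2 h3 h4
  rw [← hWe] at hW h1 h2 h3
  clear hQe hWe hce
  obtain ⟨a, hae⟩ : ∃ a, a = Real.sqrt W := ⟨_, rfl⟩
  obtain ⟨q, hqe⟩ : ∃ q, q = Real.sqrt Q := ⟨_, rfl⟩
  obtain ⟨e, hee⟩ : ∃ e, e = Real.sqrt (1 + W / 4) := ⟨_, rfl⟩
  have ha0 : 0 < a := hae ▸ Real.sqrt_pos.mpr hW
  have hq0 : 0 < q := hqe ▸ Real.sqrt_pos.mpr hQ
  have ha2 : a ^ 2 = W := hae ▸ Real.sq_sqrt hW.le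
  have hq2 : q ^ 2 = Q := hqe ▸ Real.sq_sqrt hQ.le
  have he1 : 1 ≤ e := by
    rw [hee, Real.one_le_sqrt]
    linarith
  have he2 : e ≤ 1 + W / 8 := by
    rw [hee, Real.sqrt_le_left (by linarith)]
    nlinarith [sq_nonneg W]
  rw [← hae, ← hqe, ← hee]
  clear hae hqe hee
  subst hq2
  subst ha2
  have haq : a ≤ q := by nlinarith
  have hqa : q ≤ 2 * a := by nlinarith
  have hq6 : q ≤ 6 := by nlinarith
  have hq3 : q ^ 3 ≤ 8 * a ^ 3 := by
    calc q ^ 3 ≤ (2 * a) ^ 3 := by gcongr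
      _ = 8 * a ^ 3 := by ring
  have hqma : q - a ≤ q ^ 3 := by
    have : (q - a) * (q + a) ≤ q ^ 4 := by nlinarith
    have h5 : (q - a) * q ≤ (q - a) * (q + a) :=
      mul_le_mul_of_nonneg_left (by linarith) (by linarith)
    have h6 : (q - a) * q ≤ q ^ 3 * q := by nlinarith
    exact le_of_mul_le_mul_right h6 hq0
  have h5 : q ^ 3 - a ^ 3 ≤ 3 * q ^ 5 := by
    calc q ^ 3 - a ^ 3 = (q - a) * (q ^ 2 + q * a + a ^ 2) := by ring
      _ ≤ (q ^ 3) * (q ^ 2 + q * q + q ^ 2) := by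
        have : 0 ≤ q - a := by linarith
        gcongr
      _ = 3 * q ^ 5 := by ring
  have ha3 : 0 < a ^ 3 := by positivity
  have hq3' : 0 < q ^ 3 := by positivity
  -- the two bounds
  have hA : 2 / a ^ 3 - 2 / q ^ 3 ≤ 288 / q ^ 2 := by
    rw [div_sub_div _ _ ha3.ne' hq3'.ne', div_le_div_iff₀ (by positivity) (by positivity)]
    have h6 : (2 * q ^ 3 - a ^ 3 * 2) * q ^ 2 ≤ 6 * q ^ 7 := by
      have : (2 * q ^ 3 - a ^ 3 * 2) * q ^ 2 ≤ (6 * q ^ 5) * q ^ 2 := by gcongr; linarith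
      linarith [this, show (6 * q ^ 5) * q ^ 2 = 6 * q ^ 7 by ring]
    have h7 : q ^ 7 ≤ 6 * q ^ 6 := by
      have : q ^ 7 = q * q ^ 6 := by ring
      rw [this]
      gcongr
    have h8 : q ^ 6 ≤ 8 * (a ^ 3 * q ^ 3) := by
      calc q ^ 6 = q ^ 3 * q ^ 3 := by ring
        _ ≤ (8 * a ^ 3) * q ^ 3 := by gcongr
        _ = 8 * (a ^ 3 * q ^ 3) := by ring
    linarith
  have hB : (1 + c) / (a ^ 3 * e) ≤ 2 / a ^ 3 := by
    rw [div_le_div_iff₀ (by positivity) ha3]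
    have h9 : (1 + c) * a ^ 3 ≤ 2 * a ^ 3 := by gcongr; linarith
    have h10 : 2 * a ^ 3 ≤ 2 * (a ^ 3 * e) := by nlinarith
    linarith
  have hC : 2 / q ^ 3 ≤ 2 / a ^ 3 := by
    gcongr
  have hD : 2 / a ^ 3 - (1 + c) / (a ^ 3 * e) ≤ 288 / q ^ 2 := by
    have h6 : 2 / a ^ 3 - (1 + c) / (a ^ 3 * e) = (2 * (e - 1) + (1 - c)) / (a ^ 3 * e) := by
      field_simp
      ring
    rw [h6, div_le_div_iff₀ (by positivity) (by positivity)]
    have h7 : 2 * (e - 1) + (1 - c) ≤ q ^ 2 := by nlinarith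
    have h8 : (2 * (e - 1) + (1 - c)) * q ^ 2 ≤ q ^ 2 * q ^ 2 := by gcongr
    have h9 : q ^ 2 * q ^ 2 ≤ 6 * q ^ 3 := by
      have : q ^ 2 * q ^ 2 = q * q ^ 3 := by ring
      rw [this]
      gcongr
    have h10 : a ^ 3 ≤ a ^ 3 * e := by nlinarith
    linarith
  rw [abs_le]
  constructor
  · linarith
  · linarith

/-- Continuity. -/
lemma hh_cont : ContinuousOn hh ({x | ∀ j, |x j| ≤ Real.pi} \ {0}) := by
  have hWc : Continuous WW := by unfold WW; fun_prop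
  have hQc : Continuous QQ := by unfold QQ; fun_prop
  unfold hh
  refine ContinuousOn.sub (ContinuousOn.div ?_ ?_ ?_) (ContinuousOn.div ?_ ?_ ?_)
  · exact Continuous.continuousOn (by fun_prop)
  · exact Continuous.continuousOn (by fun_prop)
  · rintro x ⟨hx, hx0⟩
    have h1 : 0 < WW x := WW_pos hx hx0
    have h2 : 0 < Real.sqrt (WW x) := Real.sqrt_pos.mpr h1
    have h3 : 0 < Real.sqrt (1 + WW x / 4) := Real.sqrt_pos.mpr (by linarith)
    positivity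
  · exact continuousOn_const
  · exact Continuous.continuousOn (by fun_prop)
  · rintro x ⟨hx, hx0⟩
    have h1 : 0 < QQ x := QQ_pos hx0
    have h2 : 0 < Real.sqrt (QQ x) := Real.sqrt_pos.mpr h1
    positivity

/-- The closed form of the leading coefficient. -/
lemma yy_eq {ω W : ℝ} (hω : 0 < ω) (hW : 0 < W) (h : 2 * Real.cosh ω - 2 = W) :
    yy ω = 1 / (Real.sqrt W ^ 3 * Real.sqrt (1 + W / 4)) := by
  have hs : 0 < Real.sinh ω := Real.sinh_pos_iff.mpr hω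
  have ha : 0 < Real.sqrt W := Real.sqrt_pos.mpr hW
  have he : 0 < Real.sqrt (1 + W / 4) := Real.sqrt_pos.mpr (by linarith)
  have ha2 : Real.sqrt W ^ 2 = W := Real.sq_sqrt hW.le
  have he2 : Real.sqrt (1 + W / 4) ^ 2 = 1 + W / 4 := Real.sq_sqrt (by linarith)
  have h1 : Real.sinh ω ^ 2 = (Real.sqrt W * Real.sqrt (1 + W / 4)) ^ 2 := by
    rw [mul_pow, ha2, he2]
    have := Real.cosh_sq ω
    nlinarith
  have h2 : Real.sinh ω = Real.sqrt W * Real.sqrt (1 + W / 4) :=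
    (pow_left_inj₀ hs.le (by positivity) (by norm_num)).mp h1
  have h3 : Real.cosh ω + 1 = 2 * Real.sqrt (1 + W / 4) ^ 2 := by
    rw [he2]; linarith
  unfold yy
  rw [h3, h2]
  field_simp

lemma wh2_eq {L : ℕ} [NeZero L] (k : Sp L) : wh2 k = WW (ag L (ir k)) := by
  unfold wh2 WW ag
  refine Finset.sum_congr rfl fun j _ => ?_
  rw [cos_ang]
  rfl

lemma en_eq {L : ℕ} [NeZero L] (k : Sp L) : en k = wn L (ir k) := by
  unfold en wn
  rw [wh2_eq]

/-- An integer vector in the cube and a momentum with the same cosines. -/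
lemma exists_mom {L : ℕ} [NeZero L] (n : Fin 3 → ℤ) (hn : ∀ j, 2 * |n j| ≤ (L : ℤ)) :
    ∃ k : Sp L, ∀ j, ir k j = n j ∨ ir k j = -n j := by
  refine ⟨fun j => (n j : ZMod L), fun j => ?_⟩
  unfold ir
  have h1 := hn j
  by_cases h : -(L : ℤ) < n j * 2
  · left
    rw [ZMod.valMinAbs_spec]
    refine ⟨rfl, h, ?_⟩
    have := le_abs_self (n j)
    linarith
  · right
    have h2 : n j * 2 = -(L : ℤ) := by
      have := neg_abs_le (n j)
      omega
    rw [ZMod.valMinAbs_spec]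
    constructor
    · have h3 : (((n j * 2 : ℤ)) : ZMod L) = 0 := by
        rw [h2]; simp
      push_cast at h3 ⊢
      linear_combination h3
    · constructor
      · have : (0 : ℤ) < L := by exact_mod_cast Nat.pos_of_ne_zero (NeZero.ne L)
        linarith
      · linarith

lemma cos_pm {a b c : ℝ} (h : a = b ∨ a = -b) : Real.cos (c * a) = Real.cos (c * b) := by
  rcases h with h | h
  · rw [h]
  · rw [h, mul_neg, Real.cos_neg]

/-- The bound for the remainder. -/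
lemma FA_bound (hEN : S_EN) (hY : S_SPY2) : ∃ C : ℝ, ∀ (L : ℕ) (n : Fin 3 → ℤ), n ≠ 0 →
    (∀ j, 2 * |n j| ≤ (L : ℤ)) → |FA L n| ≤ C / (∑ j, (n j : ℝ) ^ 2) ^ 2 := by
  obtain ⟨c, C, hc, hC, hE⟩ := hEN
  obtain ⟨D, hD⟩ := hY
  refine ⟨2 * |D| / c ^ 2, fun L n hn0 hn => ?_⟩
  obtain ⟨j0, hj0⟩ : ∃ j, n j ≠ 0 := by
    by_contra hcon
    push Not at hcon
    exact hn0 (funext hcon)
  have hL2 : 2 ≤ L := by
    have h1 := hn j0
    have h2 : 1 ≤ |n j0| := Int.one_le_abs hj0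
    omega
  have : NeZero L := ⟨by omega⟩
  obtain ⟨k, hk⟩ := exists_mom n hn
  have hk0 : k ≠ 0 := by
    intro h
    have h1 := hk j0
    have h2 : ir k j0 = 0 := by rw [h]; simp [ir]
    rw [h2] at h1
    rcases h1 with h1 | h1
    · exact hj0 h1.symm
    · exact hj0 (by omega)
  obtain ⟨e1, e2, e3, -, -, e6, -⟩ := hE L hL2 k hk0
  have hWn : WW (ag L n) = WW (ag L (ir k)) := by
    unfold WW ag
    refine Finset.sum_congr rfl fun j _ => ?_
    rw [cos_pm (c := 2 * Real.pi / (L : ℝ)) (a := (ir k j : ℝ)) (b := (n j : ℝ))]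
    rcases hk j with h | h
    · left; exact_mod_cast h
    · right; exact_mod_cast h
  have hwn : wn L n = en k := by
    rw [en_eq]
    unfold wn
    rw [hWn]
  have hS : (∑ j, (n j : ℝ) ^ 2) = ∑ j, (((k j).valMinAbs : ℤ) : ℝ) ^ 2 := by
    refine Finset.sum_congr rfl fun j _ => ?_
    rcases hk j with h | h
    · unfold ir at h
      rw [h]
    · unfold ir at h
      rw [h]
      push_cast
      ring
  have hL0 : (0 : ℝ) < L := by positivity
  have hS0 : 0 < ∑ j, (n j : ℝ) ^ 2 :=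
    Finset.sum_pos' (fun i _ => sq_nonneg _) ⟨j0, Finset.mem_univ j0, by positivity⟩
  have h1 := hD L hL2 (en k) e1 e3 e2
  unfold FA
  rw [hwn, abs_div, abs_mul, abs_of_pos (show 0 < (L : ℝ) ^ 4 by positivity)]
  have h2 : |1 + Real.cos (ag L n 0)| ≤ 2 := by
    rw [abs_le]
    constructor
    · linarith [Real.neg_one_le_cos (ag L n 0)]
    · linarith [Real.cos_le_one (ag L n 0)]
  have h3 : |YY L (en k) - L * yy (en k)| ≤ |D| / en k ^ 4 := by
    refine h1.trans ?_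
    gcongr
    exact le_abs_self D
  rw [← hS] at e6
  have h4 : (c * ∑ j, (n j : ℝ) ^ 2) ^ 2 ≤ (en k * L) ^ 4 := by
    calc (c * ∑ j, (n j : ℝ) ^ 2) ^ 2 ≤ ((en k * L) ^ 2) ^ 2 := by gcongr
      _ = (en k * L) ^ 4 := by ring
  calc |1 + Real.cos (ag L n 0)| * |YY L (en k) - L * yy (en k)| / (L : ℝ) ^ 4
      ≤ 2 * (|D| / en k ^ 4) / (L : ℝ) ^ 4 := by gcongr
    _ = 2 * |D| / (en k * L) ^ 4 := by field_simp
    _ ≤ 2 * |D| / (c * ∑ j, (n j : ℝ) ^ 2) ^ 2 := by gcongr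
    _ = 2 * |D| / c ^ 2 / (∑ j, (n j : ℝ) ^ 2) ^ 2 := by
      rw [mul_pow, div_div]

lemma lim_sq (a : ℝ) :
    Tendsto (fun L : ℕ => (L : ℝ) ^ 2 * (2 - 2 * Real.cos (a / L))) atTop (𝓝 (a ^ 2)) := by
  have h0 : Tendsto (fun L : ℕ => a ^ 2 - a ^ 4 / (L : ℝ) ^ 2) atTop (𝓝 (a ^ 2)) := by
    have h1 : Tendsto (fun L : ℕ => (L : ℝ) ^ 2) atTop atTop :=
      (tendsto_pow_atTop (by norm_num)).comp tendsto_natCast_atTop_atTop
    have h2 := (tendsto_const_nhds (x := a ^ 4)).div_atTop h1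
    simpa using (tendsto_const_nhds (x := a ^ 2)).sub h2
  refine tendsto_of_tendsto_of_tendsto_of_le_of_le' h0 tendsto_const_nhds ?_ ?_
  · filter_upwards [eventually_gt_atTop 0] with L hL
    have hL' : (0 : ℝ) < L := by exact_mod_cast hL
    have h3 := cos_quartic (a / L)
    have h4 : a ^ 2 - a ^ 4 / (L : ℝ) ^ 2 = (L : ℝ) ^ 2 * ((a / L) ^ 2 - (a / L) ^ 4) := by
      field_simp
    rw [h4]
    exact mul_le_mul_of_nonneg_left (by linarith) (by positivity)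
  · filter_upwards [eventually_gt_atTop 0] with L hL
    have hL' : (0 : ℝ) < L := by exact_mod_cast hL
    have h3 := two_sub_le (a / L)
    calc (L : ℝ) ^ 2 * (2 - 2 * Real.cos (a / L)) ≤ (L : ℝ) ^ 2 * (a / L) ^ 2 :=
          mul_le_mul_of_nonneg_left h3 (by positivity)
      _ = a ^ 2 := by field_simp

/-- The momentum of the continuum. -/
def pn (n : Fin 3 → ℤ) : Fin 3 → ℝ := fun j => 2 * Real.pi * (n j : ℝ)

lemma lim_WW (n : Fin 3 → ℤ) :
    Tendsto (fun L : ℕ => (L : ℝ) ^ 2 * WW (ag L n)) atTop (𝓝 (QQ (pn n))) := by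
  have h : ∀ L : ℕ, (L : ℝ) ^ 2 * WW (ag L n) =
      ∑ j, (L : ℝ) ^ 2 * (2 - 2 * Real.cos (pn n j / L)) := fun L => by
    unfold WW
    rw [Finset.mul_sum]
    refine Finset.sum_congr rfl fun j _ => ?_
    have : ag L n j = pn n j / L := by unfold ag pn; ring
    rw [this]
  simp_rw [h]
  unfold QQ
  exact tendsto_finsetSum _ fun j _ => lim_sq _

lemma pn_ne {n : Fin 3 → ℤ} (hn : n ≠ 0) : pn n ≠ 0 := by
  intro h
  apply hn
  funext j
  have h1 := congrFun h j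
  unfold pn at h1
  have hp := Real.pi_pos
  simp only [Pi.zero_apply, mul_eq_zero] at h1
  rcases h1 with h1 | h1
  · exfalso
    rcases h1 with h1 | h1
    · norm_num at h1
    · linarith
  · exact_mod_cast h1

/-- The norm of the momentum. -/
def qn (n : Fin 3 → ℤ) : ℝ := Real.sqrt (QQ (pn n))

lemma qn_pos {n : Fin 3 → ℤ} (hn : n ≠ 0) : 0 < qn n := Real.sqrt_pos.mpr (QQ_pos (pn_ne hn))

lemma lim_sqrt (n : Fin 3 → ℤ) :
    Tendsto (fun L : ℕ => (L : ℝ) * Real.sqrt (WW (ag L n))) atTop (𝓝 (qn n)) := by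
  have h := (lim_WW n).sqrt
  refine h.congr fun L => ?_
  rw [Real.sqrt_mul (sq_nonneg _), Real.sqrt_sq (Nat.cast_nonneg L)]

lemma lim_W0 (n : Fin 3 → ℤ) : Tendsto (fun L : ℕ => WW (ag L n)) atTop (𝓝 0) := by
  have h1 : Tendsto (fun L : ℕ => (L : ℝ) ^ 2) atTop atTop :=
    (tendsto_pow_atTop (by norm_num)).comp tendsto_natCast_atTop_atTop
  have h2 := (lim_WW n).div_atTop h1
  refine h2.congr' ?_
  filter_upwards [eventually_gt_atTop 0] with L hL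
  have hL' : (0 : ℝ) < L := by exact_mod_cast hL
  field_simp

lemma ev_pos {n : Fin 3 → ℤ} (hn : n ≠ 0) : ∀ᶠ L : ℕ in atTop, 0 < WW (ag L n) := by
  have h1 := (lim_WW n).eventually (lt_mem_nhds (QQ_pos (pn_ne hn)))
  filter_upwards [h1, eventually_gt_atTop 0] with L hL hL0
  have hL' : (0 : ℝ) < L := by exact_mod_cast hL0
  by_contra hcon
  have h2 : (L : ℝ) ^ 2 * WW (ag L n) ≤ 0 :=
    mul_nonpos_of_nonneg_of_nonpos (by positivity) (not_lt.mp hcon)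
  linarith

lemma WW_le12 (x : Fin 3 → ℝ) : WW x ≤ 12 := by
  calc WW x ≤ ∑ _j : Fin 3, (4 : ℝ) := Finset.sum_le_sum fun j _ => by
        have := Real.neg_one_le_cos (x j)
        linarith
    _ = 12 := by simp; norm_num

lemma lim_wn {n : Fin 3 → ℤ} (hn : n ≠ 0) :
    Tendsto (fun L : ℕ => (L : ℝ) * wn L n) atTop (𝓝 (qn n)) := by
  have hd : HasDerivAt Real.arsinh 1 0 := by
    have := Real.hasDerivAt_arsinh 0
    simpa using this
  rw [hasDerivAt_iff_tendsto_slope_zero] at hd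
  have h0 : Tendsto (fun L : ℕ => Real.sqrt (WW (ag L n)) / 2) atTop (𝓝 0) := by
    have := (lim_W0 n).sqrt.div_const 2
    simpa using this
  have h1 : Tendsto (fun L : ℕ => Real.sqrt (WW (ag L n)) / 2) atTop (𝓝[≠] 0) := by
    refine tendsto_nhdsWithin_iff.mpr ⟨h0, ?_⟩
    filter_upwards [ev_pos hn] with L hL
    have : 0 < Real.sqrt (WW (ag L n)) := Real.sqrt_pos.mpr hL
    exact (by positivity : (0 : ℝ) < Real.sqrt (WW (ag L n)) / 2).ne'
  have h2 := (lim_sqrt n).mul (hd.comp h1)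
  rw [mul_one] at h2
  refine h2.congr' ?_
  filter_upwards [ev_pos hn] with L hL
  have h3 : 0 < Real.sqrt (WW (ag L n)) := Real.sqrt_pos.mpr hL
  simp only [Function.comp, zero_add, Real.arsinh_zero, sub_zero, smul_eq_mul]
  unfold wn
  field_simp

/-- The limit of the remainder. -/
lemma FA_lim {ρ : ℝ → ℝ} (hρ : ∀ (p : ℕ → ℝ) (q : ℝ), 0 < q → Tendsto p atTop (𝓝 q) →
    Tendsto (fun L : ℕ => YY L (p L / L) / (L : ℝ) ^ 4) atTop (𝓝 (ρ q)))
    {n : Fin 3 → ℤ} (hn : n ≠ 0) :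
    Tendsto (fun L : ℕ => FA L n) atTop (𝓝 ((1 + 1) * (ρ (qn n) - 1 / (qn n ^ 3 * 1)))) := by
  have h1 := hρ _ (qn n) (qn_pos hn) (lim_wn hn)
  have hW0 := lim_W0 n
  have h2 : Tendsto (fun L : ℕ => 1 / (((L : ℝ) * Real.sqrt (WW (ag L n))) ^ 3 *
      Real.sqrt (1 + WW (ag L n) / 4))) atTop (𝓝 (1 / (qn n ^ 3 * 1))) := by
    have h3 : Tendsto (fun L : ℕ => Real.sqrt (1 + WW (ag L n) / 4)) atTop (𝓝 1) := by
      have := ((hW0.div_const 4).const_add 1).sqrt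
      simpa using this
    refine Tendsto.div tendsto_const_nhds (((lim_sqrt n).pow 3).mul h3) ?_
    have := qn_pos hn
    positivity
  have h4 : Tendsto (fun L : ℕ => 1 + Real.cos (ag L n 0)) atTop (𝓝 (1 + 1)) := by
    have h5 : Tendsto (fun L : ℕ => ag L n 0) atTop (𝓝 0) := by
      have h6 : Tendsto (fun L : ℕ => pn n 0 / (L : ℝ)) atTop (𝓝 0) :=
        tendsto_const_nhds.div_atTop tendsto_natCast_atTop_atTop
      refine h6.congr fun L => ?_
      unfold ag pn; ring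
    have h7 := (Real.continuous_cos.tendsto 0).comp h5
    rw [Real.cos_zero] at h7
    exact h7.const_add 1
  refine (h4.mul (h1.sub h2)).congr' ?_
  filter_upwards [ev_pos hn, eventually_gt_atTop 0] with L hL hL0
  have hL' : (0 : ℝ) < L := by exact_mod_cast hL0
  obtain ⟨e1, e2, -⟩ := energy_facts hL (WW_le12 _) (E := wn L n) rfl
  have h8 : (L : ℝ) * wn L n / L = wn L n := by field_simp
  have h3 : 0 < Real.sqrt (WW (ag L n)) := Real.sqrt_pos.mpr hL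
  have h9 : 0 < Real.sqrt (1 + WW (ag L n) / 4) := Real.sqrt_pos.mpr (by linarith)
  unfold FA
  rw [h8, yy_eq e1 hL e2]
  field_simp

/-- The contribution of a mode. -/
lemma mode_eq {L : ℕ} [NeZero L] (hEN : ∀ k : Sp L, k ≠ 0 → 0 < en k ∧ 2 * Real.cosh (en k) - 2 = wh2 k)
    {k : Sp L} (hk : k ≠ 0) :
    FY L (ang k 0) (en k) / (L : ℝ) ^ 4 = FA L (ir k) +
      (1 / (L : ℝ) ^ 3 * hh (fun j => 2 * Real.pi / (L : ℝ) * (ir k j : ℝ)) +
        1 / (4 * Real.pi ^ 3) * (1 / Real.sqrt (∑ j, (ir k j : ℝ) ^ 2) ^ 3)) := by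
  have hL : (0 : ℝ) < L := by exact_mod_cast Nat.pos_of_ne_zero (NeZero.ne L)
  have hp := Real.pi_pos
  obtain ⟨e1, e2⟩ := hEN k hk
  have hx : (fun j => 2 * Real.pi / (L : ℝ) * (ir k j : ℝ)) = ag L (ir k) := rfl
  rw [hx]
  have hs0 : ir k ≠ 0 := by
    intro h
    apply hk
    funext j
    have := congrFun h j
    unfold ir at this
    exact (ZMod.valMinAbs_eq_zero _).mp this
  have hW : 0 < WW (ag L (ir k)) := by
    rw [← wh2_eq, ← e2]
    have := Real.one_lt_cosh.mpr e1.ne'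
    linarith
  have hc : Real.cos (ang k 0) = Real.cos (ag L (ir k) 0) := by
    rw [cos_ang]
    rfl
  have hY : FY L (ang k 0) (en k) = (1 + Real.cos (ang k 0)) * YY L (en k) := rfl
  have hQ : Real.sqrt (QQ (ag L (ir k))) =
      2 * Real.pi / L * Real.sqrt (∑ j, (ir k j : ℝ) ^ 2) := by
    have h1 : QQ (ag L (ir k)) = (2 * Real.pi / L) ^ 2 * ∑ j, (ir k j : ℝ) ^ 2 := by
      unfold QQ ag
      rw [Finset.mul_sum]
      refine Finset.sum_congr rfl fun j _ => ?_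
      ring
    rw [h1, Real.sqrt_mul (sq_nonneg _), Real.sqrt_sq (by positivity)]
  have hS : 0 < Real.sqrt (∑ j, (ir k j : ℝ) ^ 2) := by
    obtain ⟨j, hj⟩ : ∃ j, ir k j ≠ 0 := by
      by_contra hcon
      push Not at hcon
      exact hs0 (funext hcon)
    exact Real.sqrt_pos.mpr
      (Finset.sum_pos' (fun i _ => sq_nonneg _) ⟨j, Finset.mem_univ j, by positivity⟩)
  have h3 : 0 < Real.sqrt (WW (ag L (ir k))) := Real.sqrt_pos.mpr hW
  have h9 : 0 < Real.sqrt (1 + WW (ag L (ir k)) / 4) := Real.sqrt_pos.mpr (by linarith)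
  have hyy : yy (en k) = 1 / (Real.sqrt (WW (ag L (ir k))) ^ 3 *
      Real.sqrt (1 + WW (ag L (ir k)) / 4)) := yy_eq e1 hW (by rw [e2, wh2_eq])
  rw [hY, hc]
  unfold FA hh
  rw [← en_eq, hyy, hQ]
  field_simp
  ring

/-- The second part of the coefficient converges. -/
theorem af_l2 : S_L2 := by
  intro hEN hY hYL hRS hZ hTAN
  obtain ⟨C, hC⟩ := FA_bound hEN hY
  obtain ⟨ρ, hρ⟩ := hYL
  obtain ⟨c, D, hc, hD, hE⟩ := hEN
  obtain ⟨x1, h1⟩ := hTAN FA _ C (fun n hn => FA_lim hρ hn) hC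
  obtain ⟨x2, h2⟩ := hRS hh 288 hh_cont (fun x hx hx0 => hh_bound hx hx0)
  obtain ⟨x3, h3⟩ := hZ
  refine ⟨x1 + (x2 + 1 / (4 * Real.pi ^ 3) * x3), ?_⟩
  have h4 := h1.add (h2.add (h3.const_mul (1 / (4 * Real.pi ^ 3))))
  refine h4.congr fun L => ?_
  have hp := Real.pi_pos
  have h5 : (∑ k ∈ nz (L + 2), FY (L + 2) (ang k 0) (en k)) / ((L + 2 : ℕ) : ℝ) ^ 4 =
      ∑ k ∈ nz (L + 2), (FA (L + 2) (ir k) +
      (1 / ((L + 2 : ℕ) : ℝ) ^ 3 * hh (fun j => 2 * Real.pi / ((L + 2 : ℕ) : ℝ) * (ir k j : ℝ)) +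
        1 / (4 * Real.pi ^ 3) * (1 / Real.sqrt (∑ j, (ir k j : ℝ) ^ 2) ^ 3))) := by
    rw [Finset.sum_div]
    refine Finset.sum_congr rfl fun k hk => ?_
    have hk0 : k ≠ 0 := by
      unfold nz at hk
      exact (Finset.mem_filter.mp hk).2
    exact mode_eq (fun k' hk' => by
      obtain ⟨a1, -, -, a4, -⟩ := hE (L + 2) (by omega) k' hk'
      exact ⟨a1, a4⟩) hk0
  rw [h5, Finset.sum_add_distrib, Finset.sum_add_distrib, ← Finset.mul_sum, ← Finset.mul_sum]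
  have h6 : 1 / (4 * Real.pi ^ 3) * (4 * Real.pi * Real.log ((L + 2 : ℕ) : ℝ)) =
      1 / Real.pi ^ 2 * Real.log ((L + 2 : ℕ) : ℝ) := by
    field_simp
  rw [mul_sub, h6]
  ring

end

end Pool.Agent.Y983.AF

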